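import Mathlib

set_option autoImplicit false

namespace Pool.Agent.H453R2

/-- Integer part: if the sextic covariant vanishes then `q = 1` or impossible. -/
lemma z5_mod (x Y p q : ℤ) (hpq : IsCoprime p q) (hq : 0 < q)
    (h : 8 * (p ^ 3 - 3 * x * p * q ^ 2 + 2 * Y * q ^ 3) ^ 2
      - 9 * (q ^ 2 * x - p ^ 2) * (3 * (q ^ 2 * x - p ^ 2) ^ 2
        - 4 * p * (p ^ 3 - 3 * x * p * q ^ 2 + 2 * Y * q ^ 3)) = 0) : q = 1 := by
  have hdvd : q ∣ p ^ 6 := by
    refine ⟨15 * x * p ^ 4 * q - 40 * Y * p ^ 3 * q ^ 2 + 45 * x ^ 2 * p ^ 2 * q ^ 3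
      - 24 * x * Y * p * q ^ 4 + (32 * Y ^ 2 - 27 * x ^ 3) * q ^ 5, ?_⟩
    linear_combination (-1) * h
  have hc : IsCoprime (p ^ 6) q := hpq.pow_left
  have hu : IsUnit q := hc.isUnit_of_dvd' hdvd dvd_rfl
  rcases Int.isUnit_iff.mp hu with h1 | h1
  · exact h1
  · omega

lemma z5_one (x u r : ℤ) (hu : 0 < u) (ha : x - u ^ 2 ≠ 0) (hle : |x - u ^ 2| ≤ u)
    (h : 8 * r ^ 2 - 9 * (x - u ^ 2) * (3 * (x - u ^ 2) ^ 2 - 4 * u * r) = 0) : False := by
  set a := x - u ^ 2 with hadef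
  -- (4r + 9 a u)^2 = (3a)^2 (6 a + 9 u^2)
  have h1 : (4 * r + 9 * a * u) ^ 2 = (3 * a) ^ 2 * (6 * a + 9 * u ^ 2) := by
    linear_combination 2 * h
  have h3a : (3 * a) ≠ 0 := by simpa using ha
  have hdvd : (3 * a) ^ 2 ∣ (4 * r + 9 * a * u) ^ 2 := ⟨_, h1⟩
  have hdvd2 : (3 * a) ∣ (4 * r + 9 * a * u) := (Int.pow_dvd_pow_iff (by norm_num)).mp hdvd
  obtain ⟨t, ht⟩ := hdvd2
  have h2 : t ^ 2 = 6 * a + 9 * u ^ 2 := by
    have : (3 * a) ^ 2 * t ^ 2 = (3 * a) ^ 2 * (6 * a + 9 * u ^ 2) := by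
      rw [← h1, ht]; ring
    exact mul_left_cancel₀ (pow_ne_zero 2 h3a) this
  have h3 : (3 : ℤ) ∣ t := by
    have : (3 : ℤ) ∣ t ^ 2 := ⟨2 * a + 3 * u ^ 2, by rw [h2]; ring⟩
    exact Int.prime_three.dvd_of_dvd_pow this
  obtain ⟨t', rfl⟩ := h3
  have h4 : 3 * (t' ^ 2 - u ^ 2) = 2 * a := by nlinarith
  have habs := abs_le.mp hle
  -- |t'| vs u
  have h5 : |t'| ^ 2 = t' ^ 2 := sq_abs t'
  have hne : |t'| ≠ u := by
    intro h6
    rw [h6] at h5
    apply ha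
    nlinarith
  rcases lt_or_gt_of_ne hne with h6 | h6
  · have h7 : |t'| ≤ u - 1 := by omega
    have h8 : |t'| ^ 2 ≤ (u - 1) ^ 2 := by
      apply pow_le_pow_left₀ (abs_nonneg _) h7
    nlinarith
  · have h7 : u + 1 ≤ |t'| := by omega
    have h8 : (u + 1) ^ 2 ≤ |t'| ^ 2 := by
      apply pow_le_pow_left₀ (by omega) h7
    nlinarith

/-- Real estimate. -/
lemma z5_real (M e θ : ℝ) (hM : 7 / 5 ≤ M) (he0 : 0 < |e|) (he : |e| ^ 5 * M ≤ 1 / 32)
    (hb : 1 ≤ |e| * (2 * M + |e|)) (hθ : |θ| * (|e| * M ^ 2) ≤ 1 / 200) :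
    |e ^ 5 * (6 * M - e) + θ * (16 * e ^ 2 * (3 * M - e) + 36 * e * (2 * M - e) * (M - e))
      + 8 * θ ^ 2| < 1 := by
  set E := |e| with hE
  have hM0 : 0 < M := by linarith
  have hE2 : E < 1 / 2 := by
    by_contra hcon
    push Not at hcon
    have h1 : (1 / 2 : ℝ) ^ 5 ≤ E ^ 5 := pow_le_pow_left₀ (by norm_num) hcon 5
    nlinarith
  have hTpos : 0 ≤ |θ| := abs_nonneg θ
  have b1 : |e ^ 5 * (6 * M - e)| ≤ E ^ 5 * (6 * M + E) := by
    rw [abs_mul, abs_pow]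
    apply mul_le_mul_of_nonneg_left _ (by positivity)
    calc |6 * M - e| ≤ |6 * M| + |e| := abs_sub _ _
      _ = 6 * M + E := by rw [abs_of_pos (by linarith)]
  have b2 : |16 * e ^ 2 * (3 * M - e) + 36 * e * (2 * M - e) * (M - e)|
      ≤ 16 * E ^ 2 * (3 * M + E) + 36 * E * (2 * M + E) * (M + E) := by
    have c1 : |3 * M - e| ≤ 3 * M + E := by
      calc |3 * M - e| ≤ |3 * M| + |e| := abs_sub _ _
        _ = 3 * M + E := by rw [abs_of_pos (by linarith)]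
    have c2 : |2 * M - e| ≤ 2 * M + E := by
      calc |2 * M - e| ≤ |2 * M| + |e| := abs_sub _ _
        _ = 2 * M + E := by rw [abs_of_pos (by linarith)]
    have c3 : |M - e| ≤ M + E := by
      calc |M - e| ≤ |M| + |e| := abs_sub _ _
        _ = M + E := by rw [abs_of_pos (by linarith)]
    calc |16 * e ^ 2 * (3 * M - e) + 36 * e * (2 * M - e) * (M - e)|
        ≤ |16 * e ^ 2 * (3 * M - e)| + |36 * e * (2 * M - e) * (M - e)| := abs_add_le _ _
      _ = 16 * E ^ 2 * |3 * M - e| + 36 * E * |2 * M - e| * |M - e| := by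
          simp only [abs_mul, abs_pow]
          norm_num
          rw [hE, sq_abs]
      _ ≤ 16 * E ^ 2 * (3 * M + E) + 36 * E * (2 * M + E) * (M + E) := by
          have : 0 ≤ E := he0.le
          gcongr
  have hTm : |θ * (16 * e ^ 2 * (3 * M - e) + 36 * e * (2 * M - e) * (M - e))|
      ≤ |θ| * (16 * E ^ 2 * (3 * M + E) + 36 * E * (2 * M + E) * (M + E)) := by
    rw [abs_mul]
    exact mul_le_mul_of_nonneg_left b2 hTpos
  -- main numeric bounds
  have hE5 : E ^ 5 ≤ 1 / 32 / M := by rw [le_div_iff₀ hM0]; exact he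
  have t1 : E ^ 5 * (6 * M + E) ≤ 6 / 32 + 1 / 64 := by
    have : E ^ 5 * E ≤ 1 / 32 * (1 / 2) := by
      have h5 : E ^ 5 ≤ 1 / 32 := by
        calc E ^ 5 ≤ 1 / 32 / M := hE5
          _ ≤ 1 / 32 := by
            apply div_le_self (by norm_num) (by linarith)
      apply mul_le_mul h5 hE2.le he0.le (by norm_num)
    nlinarith
  -- |θ| E M^2 ≤ 1/200
  have t2 : |θ| * (16 * E ^ 2 * (3 * M + E) + 36 * E * (2 * M + E) * (M + E)) ≤ 7 / 10 := by
    have k1 : 16 * E * (3 * M + E) + 36 * (2 * M + E) * (M + E) ≤ 140 * M ^ 2 := by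
      nlinarith
    have k2 : |θ| * (16 * E ^ 2 * (3 * M + E) + 36 * E * (2 * M + E) * (M + E))
        = (|θ| * E) * (16 * E * (3 * M + E) + 36 * (2 * M + E) * (M + E)) := by ring
    rw [k2]
    calc (|θ| * E) * (16 * E * (3 * M + E) + 36 * (2 * M + E) * (M + E))
        ≤ (|θ| * E) * (140 * M ^ 2) := by
          apply mul_le_mul_of_nonneg_left k1 (by positivity)
      _ = 140 * (|θ| * (E * M ^ 2)) := by ring
      _ ≤ 140 * (1 / 200) := by linarith
      _ = 7 / 10 := by norm_num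
  have t3 : 8 * θ ^ 2 ≤ 1 / 100 := by
    -- |θ| M^2 ≤ (1/200)/E ≤ (2M+E)/200
    have k1 : |θ| * M ^ 2 ≤ (2 * M + E) / 200 := by
      have h1 : |θ| * M ^ 2 * 1 ≤ |θ| * M ^ 2 * (E * (2 * M + E)) :=
        mul_le_mul_of_nonneg_left hb (by positivity)
      have h2 : |θ| * M ^ 2 * (E * (2 * M + E)) = (|θ| * (E * M ^ 2)) * (2 * M + E) := by ring
      have h3 : (|θ| * (E * M ^ 2)) * (2 * M + E) ≤ (1 / 200) * (2 * M + E) :=
        mul_le_mul_of_nonneg_right hθ (by positivity)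
      linarith
    have k2 : |θ| ≤ 1 / 100 := by
      by_contra hcon
      push Not at hcon
      have : (1 / 100) * M ^ 2 ≤ |θ| * M ^ 2 := mul_le_mul_of_nonneg_right hcon.le (by positivity)
      nlinarith
    have k3 : θ ^ 2 ≤ (1 / 100) ^ 2 := by
      rw [← sq_abs]
      exact pow_le_pow_left₀ hTpos k2 2
    linarith
  calc |e ^ 5 * (6 * M - e) + θ * (16 * e ^ 2 * (3 * M - e) + 36 * e * (2 * M - e) * (M - e))
      + 8 * θ ^ 2|
      ≤ |e ^ 5 * (6 * M - e) + θ * (16 * e ^ 2 * (3 * M - e) + 36 * e * (2 * M - e) * (M - e))|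
        + |8 * θ ^ 2| := abs_add_le _ _
    _ ≤ |e ^ 5 * (6 * M - e)|
        + |θ * (16 * e ^ 2 * (3 * M - e) + 36 * e * (2 * M - e) * (M - e))|
        + |8 * θ ^ 2| := by gcongr; exact abs_add_le _ _
    _ ≤ (6 / 32 + 1 / 64) + 7 / 10 + 1 / 100 := by
        have : |8 * θ ^ 2| = 8 * θ ^ 2 := abs_of_nonneg (by positivity)
        rw [this]
        linarith
    _ < 1 := by norm_num


/-- Main inequality, nonnegative `Y`. -/
lemma hall_near_rational (x Y p q : ℤ) (hx : 0 < x) (hns : ¬ IsSquare x) (hY : 0 ≤ Y)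
    (hq : 0 < q) (hpq : IsCoprime p q)
    (hclose : |√(x : ℝ) - p / q| ^ 5 * q ^ 6 * √(x : ℝ) ≤ 1 / 32) :
    √(x : ℝ) ≤ 400 * |(Y : ℝ) ^ 2 - x ^ 3| * (|√(x : ℝ) - p / q| * q ^ 6) := by
  set m := √(x : ℝ) with hm
  have hxR : (0 : ℝ) < x := by exact_mod_cast hx
  have hm2 : m ^ 2 = x := Real.sq_sqrt hxR.le
  have hm0 : 0 < m := Real.sqrt_pos.mpr hxR
  have hqR : (0 : ℝ) < q := by exact_mod_cast hq
  have hq1 : (1 : ℝ) ≤ q := by exact_mod_cast hq
  have hx2 : 2 ≤ x := by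
    rcases lt_or_ge x 2 with h | h
    · exfalso
      have : x = 1 := by omega
      apply hns
      rw [this]
      exact ⟨1, by norm_num⟩
    · exact h
  have hm75 : 7 / 5 ≤ m := by
    have h2 : (2 : ℝ) ≤ x := by exact_mod_cast hx2
    by_contra hcon
    push Not at hcon
    nlinarith
  set M : ℝ := q * m with hM
  have hMm : m ≤ M := by rw [hM]; nlinarith
  have hM75 : 7 / 5 ≤ M := le_trans hm75 hMm
  have hM0 : 0 < M := by linarith
  have hM2 : M ^ 2 = q ^ 2 * x := by rw [hM, mul_pow, hm2]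
  set e : ℝ := M - p with he
  -- e in terms of the distance
  have hdist : |m - p / q| = |e| / q := by
    have : m - p / q = e / q := by
      rw [he, hM]; field_simp
    rw [this, abs_div, abs_of_pos hqR]
  have hcl : |e| ^ 5 * M ≤ 1 / 32 := by
    have : |e| ^ 5 * M = |m - p / q| ^ 5 * q ^ 6 * m := by
      rw [hdist, hM]; field_simp
    rw [this]; exact hclose
  -- integer b
  have hbR : ((q ^ 2 * x - p ^ 2 : ℤ) : ℝ) = e * (2 * M - e) := by
    push_cast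
    rw [← hM2, he]; ring
  have hbne : (q ^ 2 * x - p ^ 2 : ℤ) ≠ 0 := by
    intro h0
    apply hns
    have h1 : q ^ 2 * x = p ^ 2 := by linarith
    have h2 : q ^ 2 ∣ p ^ 2 := ⟨x, h1.symm⟩
    have h3 : q ∣ p := (Int.pow_dvd_pow_iff (by norm_num)).mp h2
    obtain ⟨c, hc⟩ := h3
    refine ⟨c, ?_⟩
    have h4 : q ^ 2 * x = q ^ 2 * (c * c) := by rw [h1, hc]; ring
    exact mul_left_cancel₀ (pow_ne_zero 2 hq.ne') h4
  have he0 : 0 < |e| := by
    rw [abs_pos]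
    intro h0
    apply hbne
    have : ((q ^ 2 * x - p ^ 2 : ℤ) : ℝ) = 0 := by rw [hbR, h0]; ring
    exact_mod_cast this
  have hb1 : 1 ≤ |e| * (2 * M + |e|) := by
    have h1 : (1 : ℝ) ≤ |((q ^ 2 * x - p ^ 2 : ℤ) : ℝ)| := by
      exact_mod_cast Int.one_le_abs hbne
    rw [hbR, abs_mul] at h1
    refine le_trans h1 ?_
    apply mul_le_mul_of_nonneg_left _ (abs_nonneg _)
    calc |2 * M - e| ≤ |2 * M| + |e| := abs_sub _ _
      _ = 2 * M + |e| := by rw [abs_of_pos (by linarith)]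
  by_contra hcon
  push Not at hcon
  rw [hdist] at hcon
  set θ : ℝ := 2 * q ^ 3 * (Y - m ^ 3) with hθ
  have hYR : (0 : ℝ) ≤ Y := by exact_mod_cast hY
  have hk : (Y : ℝ) ^ 2 - x ^ 3 = (Y - m ^ 3) * (Y + m ^ 3) := by
    rw [← hm2]; ring
  have hθb : |θ| * (|e| * M ^ 2) ≤ 1 / 200 := by
    -- |θ| m^3 ≤ 2 q^3 |k|
    have h1 : |θ| * m ^ 3 ≤ 2 * q ^ 3 * |(Y : ℝ) ^ 2 - x ^ 3| := by
      rw [hk, hθ, abs_mul, abs_mul (Y - m ^ 3 : ℝ), abs_of_pos (by positivity : (0 : ℝ) < 2 * q ^ 3),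
        abs_of_nonneg (by positivity : (0 : ℝ) ≤ Y + m ^ 3)]
      have : 0 ≤ |(Y : ℝ) - m ^ 3| := abs_nonneg _
      have h2 : |(Y : ℝ) - m ^ 3| * m ^ 3 ≤ |(Y : ℝ) - m ^ 3| * (Y + m ^ 3) :=
        mul_le_mul_of_nonneg_left (by linarith) this
      nlinarith [pow_pos hqR 3]
    -- 400 |k| |e| q^5 < m
    have h3 : 400 * |(Y : ℝ) ^ 2 - x ^ 3| * (|e| * q ^ 5) < m := by
      have : |e| / q * (q : ℝ) ^ 6 = |e| * q ^ 5 := by field_simp
      rw [this] at hcon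
      exact hcon
    have h4 : |θ| * (|e| * M ^ 2) * m ≤ 1 / 200 * m := by
      have e1 : |θ| * (|e| * M ^ 2) * m = (|θ| * m ^ 3) * (|e| * q ^ 2) := by
        rw [hM]; ring
      rw [e1]
      calc (|θ| * m ^ 3) * (|e| * q ^ 2)
          ≤ (2 * q ^ 3 * |(Y : ℝ) ^ 2 - x ^ 3|) * (|e| * q ^ 2) := by
            apply mul_le_mul_of_nonneg_right h1 (by positivity)
        _ = (400 * |(Y : ℝ) ^ 2 - x ^ 3| * (|e| * q ^ 5)) / 200 := by ring
        _ ≤ m / 200 := by linarith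
        _ = 1 / 200 * m := by ring
    exact le_of_mul_le_mul_right h4 hm0
  have hlt := z5_real M e θ hM75 he0 hcl hb1 hθb
  -- integer R
  set R : ℤ := p ^ 3 - 3 * x * p * q ^ 2 + 2 * Y * q ^ 3 with hR
  have hRR : (R : ℝ) = e ^ 2 * (3 * M - e) + θ := by
    have hM3 : (M : ℝ) ^ 3 = q ^ 3 * m ^ 3 := by rw [hM]; ring
    have : (p : ℝ) = M - e := by rw [he]; ring
    rw [hR]
    push_cast
    rw [this, hθ]
    have hxM : (3 : ℝ) * x * (M - e) * q ^ 2 = 3 * M ^ 2 * (M - e) := by rw [hM2]; ring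
    rw [hxM]
    linear_combination (-2) * hM3
  have hpR : (p : ℝ) = M - e := by rw [he]; ring
  have hZ : (8 * R ^ 2 - 9 * (q ^ 2 * x - p ^ 2) * (3 * (q ^ 2 * x - p ^ 2) ^ 2 - 4 * p * R) : ℤ)
      = 0 := by
    have hint : |((8 * R ^ 2 - 9 * (q ^ 2 * x - p ^ 2) * (3 * (q ^ 2 * x - p ^ 2) ^ 2
        - 4 * p * R) : ℤ) : ℝ)| < 1 := by
      have hb' := hbR
      push_cast at hb'
      push_cast
      rw [hb', hRR, hpR]
      convert hlt using 2
      ring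
    have : |(8 * R ^ 2 - 9 * (q ^ 2 * x - p ^ 2) * (3 * (q ^ 2 * x - p ^ 2) ^ 2
        - 4 * p * R) : ℤ)| < 1 := by exact_mod_cast hint
    exact Int.abs_lt_one_iff.mp this
  have hq1' : q = 1 := z5_mod x Y p q hpq hq hZ
  subst hq1'
  -- q = 1
  have hMm' : M = m := by rw [hM]; simp
  have hE2 : |e| < 1 / 2 := by
    by_contra hcon2
    push Not at hcon2
    have h1 : (1 / 2 : ℝ) ^ 5 ≤ |e| ^ 5 := pow_le_pow_left₀ (by norm_num) hcon2 5
    nlinarith
  have hp0 : 0 < p := by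
    have : (0 : ℝ) < p := by
      rw [hpR]
      have := (abs_lt.mp hE2).2
      linarith
    exact_mod_cast this
  have hab : |x - p ^ 2| ≤ p := by
    have h1 : ((|x - p ^ 2| : ℤ) : ℝ) < p + 1 := by
      push_cast
      have h2 : (x : ℝ) - p ^ 2 = e * (2 * M - e) := by
        have := hbR
        push_cast at this
        simpa using this
      rw [h2, abs_mul]
      have h3 : |2 * M - e| ≤ 2 * p + 1 / 2 := by
        have h4 : 2 * M - e = 2 * p + e := by rw [he]; ring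
        rw [h4]
        have hpR0 : (0 : ℝ) < p := by exact_mod_cast hp0
        calc |2 * (p : ℝ) + e| ≤ |2 * (p : ℝ)| + |e| := abs_add_le _ _
          _ ≤ 2 * p + 1 / 2 := by rw [abs_of_pos (by linarith)]; linarith
      have h5 : |e| * |2 * M - e| ≤ (1 / 2) * (2 * p + 1 / 2) := by
        have hpR0 : (0 : ℝ) < p := by exact_mod_cast hp0
        apply mul_le_mul hE2.le h3 (abs_nonneg _) (by norm_num)
      linarith
    have h2 : |x - p ^ 2| < p + 1 := by exact_mod_cast h1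
    omega
  have ha : x - p ^ 2 ≠ 0 := by simpa using hbne
  apply z5_one x p R hp0 ha hab
  have hZ' := hZ
  simp only [one_pow, one_mul] at hZ'
  linear_combination hZ'

end Pool.Agent.H453R2
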